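import Mathlib

/-!
# Row P41 of the board `cto`, part a: the Newton polygon
-/

set_option autoImplicit false

namespace Pool.CND

namespace P41

/-- the four orders: equality of the two least, or a unique least one -/
theorem tri (q Q T w : ℤ) (hq : 3 ≤ q) (hQ : q ≤ Q) (hT : T < 0) :
    ((q - 1) * w = -((q * Q - 2) * T) ∨ q * (Q - 1) * w = (Q - 2) * T ∨ q * w = T) ∨
    (w < q * q * Q * w ∧ w < (q - 1) * Q * T + q * Q * w ∧ w < (q * Q - 2) * T + q * w) ∨
    ((q * Q - 2) * T + q * w < q * q * Q * w ∧
      (q * Q - 2) * T + q * w < (q - 1) * Q * T + q * Q * w ∧ (q * Q - 2) * T + q * w < w) ∨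
    ((q - 1) * Q * T + q * Q * w < q * q * Q * w ∧
      (q - 1) * Q * T + q * Q * w < (q * Q - 2) * T + q * w ∧ (q - 1) * Q * T + q * Q * w < w) ∨
    (q * q * Q * w < (q - 1) * Q * T + q * Q * w ∧ q * q * Q * w < (q * Q - 2) * T + q * w ∧
      q * q * Q * w < w) := by
  have hQ3 : 3 ≤ Q := hq.trans hQ
  have hq1 : 0 < q - 1 := by linarith
  have hQ1 : 0 < Q - 1 := by linarith
  have hQ2 : 0 < Q - 2 := by linarith
  have hqQ : 9 ≤ q * Q := by nlinarith
  have hqQ2 : 0 < q * Q - 2 := by linarith
  have hqQ1 : 0 < q * Q - 1 := by linarith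
  have hqqQ : 1 < q * q * Q := by nlinarith
  have he : 0 < -T := by linarith
  rcases lt_trichotomy ((q - 1) * w) (-((q * Q - 2) * T)) with h1 | h1 | h1
  · rcases lt_trichotomy (q * (Q - 1) * w) ((Q - 2) * T) with h2 | h2 | h2
    · rcases lt_trichotomy (q * w) T with h3 | h3 | h3
      · -- below
        right; right; right; right
        have hw : w < 0 := by
          by_contra hc
          rw [not_lt] at hc
          have : 0 ≤ q * w := mul_nonneg (by linarith) hc
          linarith
        have k1 : 0 < (q - 1) * Q * (T - q * w) :=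
          mul_pos (mul_pos hq1 (by linarith)) (by linarith)
        have k2 : 0 < (q * Q - 1) * (T - q * w) := mul_pos hqQ1 (by linarith)
        have k3 : 0 < (q * q * Q - 1) * (-w) := mul_pos (by linarith) (by linarith)
        exact ⟨by linarith, by linarith, by linarith⟩
      · left; right; right; exact h3
      · right; right; right; left
        have hw : w < 0 := by
          by_contra hc
          rw [not_lt] at hc
          have k1 : 0 ≤ q * (Q - 1) * w := mul_nonneg (mul_nonneg (by linarith) hQ1.le) hc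
          have k2 : 0 < (Q - 2) * (-T) := mul_pos hQ2 he
          linarith
        have k1 : 0 < (q - 1) * Q * (q * w - T) :=
          mul_pos (mul_pos hq1 (by linarith)) (by linarith)
        have k2 : 0 < (q * Q - 1) * (-w) := mul_pos hqQ1 (by linarith)
        have k3 : 0 < (q - 1) * Q * (-T) := mul_pos (mul_pos hq1 (by linarith)) he
        exact ⟨by linarith, by linarith, by linarith⟩
    · left; right; left; exact h2
    · right; right; left
      refine ⟨?_, by linarith, by linarith⟩
      have k1 : 0 < (q * Q - 1) * (q * (Q - 1) * w - (Q - 2) * T) := mul_pos hqQ1 (by linarith)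
      have k2 : 0 < (q - 1) * Q * (-T) := mul_pos (mul_pos hq1 (by linarith)) he
      have k3 : 0 < (Q - 1) * (q * q * Q * w - ((q * Q - 2) * T + q * w)) := by
        have e : (Q - 1) * (q * q * Q * w - ((q * Q - 2) * T + q * w)) =
            (q * Q - 1) * (q * (Q - 1) * w - (Q - 2) * T) + (q - 1) * Q * (-T) := by ring
        rw [e]
        linarith
      have := (mul_pos_iff_of_pos_left hQ1).1 k3
      linarith
  · left; left; exact h1
  · right; left
    have k0 : 0 < (q * Q - 2) * (-T) := mul_pos hqQ2 he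
    have hw : 0 < w := by
      by_contra hc
      rw [not_lt] at hc
      have : (q - 1) * w ≤ 0 := mul_nonpos_of_nonneg_of_nonpos hq1.le hc
      linarith
    have k1 : 0 < (q * q * Q - 1) * w := mul_pos (by linarith) hw
    have k2 : w < (q - 1) * T + q * w := by
      have : 0 < (q * (Q - 1) - 1) * (-T) := mul_pos (by nlinarith) he
      nlinarith
    have k3 : (q - 1) * T + q * w ≤ Q * ((q - 1) * T + q * w) := by
      have : 0 ≤ (Q - 1) * ((q - 1) * T + q * w) := mul_nonneg hQ1.le (by linarith)
      linarith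
    exact ⟨by linarith, by nlinarith, by linarith⟩

/-- kind A: the other terms -/
theorem kA {q Q T w : ℤ} (hq : 3 ≤ q) (hQ : q ≤ Q) (hT : T < 0)
    (h : (q - 1) * w = -((q * Q - 2) * T)) :
    0 < w ∧ w + 1 ≤ q * q * Q * w ∧ w + 1 ≤ (q - 1) * Q * T + q * Q * w := by
  have hQ3 : 3 ≤ Q := hq.trans hQ
  have hq1 : 0 < q - 1 := by linarith
  have hQ1 : 0 < Q - 1 := by linarith
  have hqQ : 9 ≤ q * Q := by nlinarith
  have hqqQ : 1 < q * q * Q := by nlinarith
  have he : 0 < -T := by linarith
  have k0 : 0 < (q * Q - 2) * (-T) := mul_pos (by linarith) he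
  have hw : 0 < w := by
    by_contra hc
    rw [not_lt] at hc
    have : (q - 1) * w ≤ 0 := mul_nonpos_of_nonneg_of_nonpos hq1.le hc
    linarith
  have k1 : 0 < (q * q * Q - 1) * w := mul_pos (by linarith) hw
  have k2 : w < (q - 1) * T + q * w := by
    have : 0 < (q * (Q - 1) - 1) * (-T) := mul_pos (by nlinarith) he
    nlinarith
  have k3 : (q - 1) * T + q * w ≤ Q * ((q - 1) * T + q * w) := by
    have : 0 ≤ (Q - 1) * ((q - 1) * T + q * w) := mul_nonneg hQ1.le (by linarith)
    linarith
  refine ⟨hw, ?_, ?_⟩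
  · have : w < q * q * Q * w := by linarith
    omega
  · have : w < (q - 1) * Q * T + q * Q * w := by nlinarith
    omega

/-- kind B: the other terms -/
theorem kB {q Q T w : ℤ} (hq : 3 ≤ q) (hQ : q ≤ Q) (hT : T < 0)
    (h : q * (Q - 1) * w = (Q - 2) * T) :
    w < 0 ∧ T < q * w ∧ (q * Q - 2) * T + q * w + 1 ≤ q * q * Q * w ∧
      (q * Q - 2) * T + q * w + 1 ≤ w ∧
      (q - 1) * Q * T + q * Q * w = (q * Q - 2) * T + q * w := by
  have hQ3 : 3 ≤ Q := hq.trans hQ
  have hq1 : 0 < q - 1 := by linarith
  have hQ1 : 0 < Q - 1 := by linarith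
  have hQ2 : 0 < Q - 2 := by linarith
  have hqQ : 9 ≤ q * Q := by nlinarith
  have he : 0 < -T := by linarith
  have hw : w < 0 := by
    by_contra hc
    rw [not_lt] at hc
    have k1 : 0 ≤ q * (Q - 1) * w := mul_nonneg (mul_nonneg (by linarith) hQ1.le) hc
    have k2 : 0 < (Q - 2) * (-T) := mul_pos hQ2 he
    linarith
  have h5 : T < q * w := by
    have k : 0 < (Q - 1) * (q * w - T) := by
      have e : (Q - 1) * (q * w - T) = -T := by linear_combination h
      rw [e]
      exact he
    have := (mul_pos_iff_of_pos_left hQ1).1 k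
    linarith
  have heq : (q - 1) * Q * T + q * Q * w = (q * Q - 2) * T + q * w := by linear_combination h
  refine ⟨hw, h5, ?_, ?_, heq⟩
  · have k2 : 0 < (q - 1) * Q * (-T) := mul_pos (mul_pos hq1 (by linarith)) he
    have k3 : 0 < (Q - 1) * (q * q * Q * w - ((q * Q - 2) * T + q * w)) := by
      have e : (Q - 1) * (q * q * Q * w - ((q * Q - 2) * T + q * w)) =
          (q - 1) * Q * (-T) := by linear_combination (q * Q - 1) * h
      rw [e]
      exact k2
    have := (mul_pos_iff_of_pos_left hQ1).1 k3
    omega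
  · have k2 : 0 < (q * Q - 1) * (-w) := mul_pos (by linarith) (by linarith)
    have k3 : 0 < (q - 1) * Q * (-T) := mul_pos (mul_pos hq1 (by linarith)) he
    have : (q * Q - 2) * T + q * w < w := by
      rw [← heq]
      linarith
    omega

/-- kind C: the other terms -/
theorem kC {q Q T w : ℤ} (hq : 3 ≤ q) (hQ : q ≤ Q) (hT : T < 0) (h : q * w = T) :
    w < 0 ∧ (q - 1) * Q * T + q * Q * w + 1 ≤ (q * Q - 2) * T + q * w ∧
      (q - 1) * Q * T + q * Q * w + 1 ≤ w ∧
      q * q * Q * w = (q - 1) * Q * T + q * Q * w := by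
  have hQ3 : 3 ≤ Q := hq.trans hQ
  have hq1 : 0 < q - 1 := by linarith
  have hqQ : 9 ≤ q * Q := by nlinarith
  have he : 0 < -T := by linarith
  have hw : w < 0 := by
    by_contra hc
    rw [not_lt] at hc
    have : 0 ≤ q * w := mul_nonneg (by linarith) hc
    linarith
  have e1 : (q * Q - 2) * T + q * w - ((q - 1) * Q * T + q * Q * w) = -T := by
    linear_combination (1 - Q) * h
  refine ⟨hw, by omega, ?_, by linear_combination (q * Q - Q) * h⟩
  have k2 : 0 < (q * Q - 1) * (-w) := mul_pos (by linarith) (by linarith)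
  have k3 : 0 < (q - 1) * Q * (-T) := mul_pos (mul_pos hq1 (by linarith)) he
  have : (q - 1) * Q * T + q * Q * w < w := by linarith
  omega

end P41

end Pool.CND
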