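import Pool.Agent.H37.CTO.Stmts
import Pool.Agent.H46.CTN.FN1
import Pool.Agent.H17.CTN.N41
import Pool.Agent.H72.CTN.FN2
import Pool.Agent.H40.CTO.P41a

/-!
# Row P41 of the board `cto`: the cover and the orders of the roots at a place at infinity
-/

set_option autoImplicit false

namespace Pool.CND

open Finset

namespace P41

/-- change of basis, as `FN2` -/
theorem basis (p : ℕ) (k F L : Type) [Field k] [Field F] [Algebra F k] [Field L]
    [Algebra k L] (f q s : ℕ) (t : L) (X : Fin (s + 3) → L)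
    (G₀ : Subgroup (Matrix.SpecialLinearGroup (Fin (s + 3)) F)) (ρ : G₀ →* (L ≃ₐ[k] L))
    (h : Matrix (Fin (s + 3)) (Fin (s + 3)) F) (hp : p.Prime) (hch : CharP k p)
    (hq : q = p ^ f) (hF : Nat.card F = q) (hS : PRoots k F L q s t X)
    (hC : NCover k F L t X G₀ ρ) (hh : h.det ≠ 0) :
    ∃ (G₁ : Subgroup (Matrix.SpecialLinearGroup (Fin (s + 3)) F)) (ρ₁ : G₁ →* (L ≃ₐ[k] L)),
      PRoots k F L q s t (fun i => ∑ j, cst k F L (h j i) * X j) ∧
      NCover k F L t (fun i => ∑ j, cst k F L (h j i) * X j) G₁ ρ₁ := by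
  haveI : Fact p.Prime := ⟨hp⟩
  haveI : CharP L p := charP_of_injective_algebraMap (algebraMap k L).injective p
  haveI : Finite F := Nat.finite_of_card_ne_zero (by rw [hF, hq]; exact pow_ne_zero _ hp.ne_zero)
  haveI : Fintype F := Fintype.ofFinite F
  have hFq : Fintype.card F = q := by rw [← Nat.card_eq_fintype_card, hF]
  set κ : F →+* L := (algebraMap k L).comp (algebraMap F k) with hκ
  have hcst : ∀ c : F, cst k F L c = κ c := fun c => rfl
  have hpow : ∀ (c : Fin (s + 3) → F) (l : ℕ), (∑ j, κ (c j) * X j) ^ q ^ l =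
      ∑ j, κ (c j) * X j ^ q ^ l := by
    intro c l
    have e1 : q ^ l = p ^ (f * l) := by rw [hq, pow_mul]
    rw [e1, sum_pow_char_pow]
    refine Finset.sum_congr rfl fun j _ => ?_
    rw [mul_pow, ← map_pow, ← e1, ← hFq, FiniteField.pow_card_pow]
  have hrel : ∀ c : Fin (s + 3) → F, (∑ j, κ (c j) * X j) ^ q ^ (s + 3) -
      (t ^ ((q - 1) * q ^ (s + 1)) + 2 * t ^ ((q - 1) * q ^ (s + 1) - 1)) *
        (∑ j, κ (c j) * X j) ^ q ^ (s + 2) +
      t ^ (q ^ (s + 2) - 2) * (∑ j, κ (c j) * X j) ^ q + (∑ j, κ (c j) * X j) = 0 := by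
    intro c
    have h1 := hpow c 1
    rw [pow_one] at h1
    rw [hpow, hpow, h1]
    have h2 : ∀ j, κ (c j) * X j ^ q ^ (s + 3) -
        (t ^ ((q - 1) * q ^ (s + 1)) + 2 * t ^ ((q - 1) * q ^ (s + 1) - 1)) *
          (κ (c j) * X j ^ q ^ (s + 2)) +
        t ^ (q ^ (s + 2) - 2) * (κ (c j) * X j ^ q) + κ (c j) * X j = 0 := by
      intro j
      have h3 := hS.rel j
      linear_combination κ (c j) * h3
    rw [Finset.mul_sum, Finset.mul_sum, ← Finset.sum_sub_distrib, ← Finset.sum_add_distrib,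
      ← Finset.sum_add_distrib]
    exact Finset.sum_eq_zero fun j _ => h2 j
  set G₁ := G₀.comap (fn2conj h hh) with hG₁
  let φ : G₁ →* G₀ := (fn2conj h hh).subgroupComap G₀
  refine ⟨G₁, ρ.comp φ, ⟨?_, ?_, hS.tr⟩, ⟨?_, ?_⟩⟩
  · intro i
    exact hrel fun j => h j i
  · intro c hc
    have h1 : ∑ i, κ (c i) * ∑ j, κ (h j i) * X j = ∑ j, κ (h.mulVec c j) * X j := by
      simp only [Matrix.mulVec, dotProduct, map_sum, map_mul, Finset.sum_mul, Finset.mul_sum]
      rw [Finset.sum_comm]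
      refine Finset.sum_congr rfl fun l _ => Finset.sum_congr rfl fun j _ => ?_
      ring
    have h2 : h.mulVec c = 0 := hS.ind _ (h1 ▸ hc)
    by_contra hne
    exact hh (Matrix.exists_mulVec_eq_zero_iff.1 ⟨c, hne, h2⟩)
  · intro g i
    have hm : (φ g).1.1 = h * g.1.1 * h⁻¹ := rfl
    have e : h⁻¹ * h = 1 := Matrix.nonsing_inv_mul _ (isUnit_iff_ne_zero.2 hh)
    have hm2 : (φ g).1.1 * h = h * g.1.1 := by
      rw [hm, Matrix.mul_assoc, e, Matrix.mul_one]
    show ρ (φ g) (∑ j, κ (h j i) * X j) = ∑ j, κ (g.1.1 j i) * ∑ l, κ (h l j) * X l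
    rw [fn2sum κ h g.1.1 X i, ← hm2, ← fn2sum κ (φ g).1.1 h X i, map_sum]
    refine Finset.sum_congr rfl fun j _ => ?_
    rw [map_mul, hC.act (φ g) j]
    congr 1
    exact (ρ (φ g)).commutes _
  · have hsurj : ∀ g₀ : G₀, ∃ g : G₁, φ g = g₀ := by
      intro g₀
      obtain ⟨g', hg'⟩ := fn2conj_surj h hh g₀.1
      refine ⟨⟨g', ?_⟩, ?_⟩
      · rw [hG₁, Subgroup.mem_comap, hg']
        exact g₀.2
      · exact Subtype.ext hg'
    have hinj : ∀ g : G₁, φ g = 1 → g = 1 := by
      intro g hg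
      apply Subtype.ext
      exact fn2conj_inj h hh g.1 (congrArg Subtype.val hg)
    refine ⟨?_, hC.cov.trans, ?_, ?_⟩
    · rw [injective_iff_map_eq_one]
      intro g hg
      apply hinj
      apply hC.cov.inj
      rw [map_one]
      exact hg
    · intro x
      rw [← hC.cov.fixed x]
      constructor
      · intro hx g₀
        obtain ⟨g, rfl⟩ := hsurj g₀
        exact hx g
      · intro hx g
        exact hx (φ g)
    · intro P hP g hg
      exact hinj g (hC.cov.unram P hP (φ g) hg)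

section places

variable {k L : Type} [Field k] [Field L] [Algebra k L] (P : Place k L)

theorem no_min4 {a b c d : L} (ha : a ≠ 0) (h : a + b + c + d = 0) (hb : P.Ge b (P.ord a + 1))
    (hc : P.Ge c (P.ord a + 1)) (hd : P.Ge d (P.ord a + 1)) : False := by
  have h4 := (P.ord_add_of_lt ha (P.ge_add (P.ge_add hb hc) hd)).1
  exact h4 (by rw [← h]; ring)

/-- the two leading terms -/
theorem res {p f q : ℕ} (hp : p.Prime) [CharP L p] (hq : q = p ^ f) (hq0 : q ≠ 0) (u v : ℕ)
    {A B x y Rx Ry : L} {a : k} {m : ℤ} (hy0 : y ≠ 0) (hA : A ≠ 0)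
    (hm : P.ord (A * y ^ q ^ u) = m) (hB : P.Ge (B * y ^ q ^ v) m) (hRx : P.Ge Rx (m + 1))
    (hRy : P.Ge Ry (m + 1)) (hx : A * x ^ q ^ u + B * x ^ q ^ v + Rx = 0)
    (hy : A * y ^ q ^ u + B * y ^ q ^ v + Ry = 0) (ha : P.Ge (x / y - algebraMap k L a) 1) :
    a ^ q ^ u = a ^ q ^ v := by
  set z : L := x / y - algebraMap k L a with hz
  have hAy : A * y ^ q ^ u ≠ 0 := mul_ne_zero hA (pow_ne_zero _ hy0)
  have hxy : x = (algebraMap k L a + z) * y := by
    rw [hz]
    field_simp
    ring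
  have hpw : ∀ j, x ^ q ^ j = (algebraMap k L a ^ q ^ j + z ^ q ^ j) * y ^ q ^ j := by
    intro j
    rw [hxy, mul_pow, FN1.pow_add hp hq]
  have hzj : ∀ j, P.Ge (z ^ q ^ j) 1 := by
    intro j
    refine P.ge_mono (N41.ge_pow P ha (pow_ne_zero _ hq0)) ?_
    have : 1 ≤ q ^ j := Nat.one_le_pow _ _ (by omega)
    have h2 : (1 : ℤ) ≤ ((q ^ j : ℕ) : ℤ) := by exact_mod_cast this
    linarith
  have key : algebraMap k L (a ^ q ^ u - a ^ q ^ v) * (A * y ^ q ^ u) =
      -(z ^ q ^ u * (A * y ^ q ^ u)) - z ^ q ^ v * (B * y ^ q ^ v) - Rx +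
        algebraMap k L (a ^ q ^ v) * Ry := by
    rw [hpw u, hpw v] at hx
    rw [map_sub, map_pow, map_pow]
    linear_combination hx - algebraMap k L a ^ q ^ v * hy
  have hge : P.Ge (algebraMap k L (a ^ q ^ u - a ^ q ^ v) * (A * y ^ q ^ u))
      (P.ord (A * y ^ q ^ u) + 1) := by
    rw [key, hm]
    refine P.ge_add (P.ge_sub (P.ge_sub (P.ge_neg ?_) ?_) hRx) (N41.ge_cmul P _ hRy)
    · have := P.ge_mul (hzj u) (P.ge_ord (A * y ^ q ^ u))
      rwa [hm, add_comm] at this
    · have := P.ge_mul (hzj v) hB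
      rwa [add_comm] at this
  exact sub_eq_zero.1 (N41.coef0 P hAy hge)

end places

/-- Frobenius is injective -/
theorem frob_inj {k : Type} [Field k] {p f q : ℕ} (hp : p.Prime) [CharP k p] (hq : q = p ^ f)
    (hq0 : q ≠ 0) {u d : ℕ} {a : k} (h : a ^ q ^ u = a ^ q ^ (u + d)) : a ^ q ^ d = a := by
  have h1 := FN1.pow_add hp hq u (a ^ q ^ d - a) a
  rw [sub_add_cancel, ← pow_mul, ← pow_add, add_comm d u, ← h] at h1
  have h2 : (a ^ q ^ d - a) ^ q ^ u = 0 := by linear_combination -h1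
  exact sub_eq_zero.1 ((pow_eq_zero_iff (pow_ne_zero _ hq0)).1 h2)

section linear

variable {k F L : Type} [Field k] [Field F] [Field L] [Algebra F k] [Algebra k L]

open N41 in
/-- a step of the filtration -/
theorem step (P : Place k L) {n q : ℕ} (hq2 : 2 ≤ q) (hF : Nat.card F = q)
    (U K : Submodule F (Fin n → F)) (X : Fin n → L) (c₁ : Fin n → F)
    (hy0 : rt (k := k) X c₁ ≠ 0)
    (hU : ∀ c ∈ U, P.Ge (rt (k := k) X c) (P.ord (rt (k := k) X c₁)))
    (hK : ∀ c ∈ U, P.Ge (rt (k := k) X c) (P.ord (rt (k := k) X c₁) + 1) → c ∈ K) (d : ℕ)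
    (hd : 1 ≤ d)
    (hres : ∀ c ∈ U, ∀ a : k, P.Ge (rt (k := k) X c / rt (k := k) X c₁ - algebraMap k L a) 1 →
      a ^ q ^ d = a) :
    Module.finrank F U ≤ Module.finrank F K + d := by
  obtain ⟨S, hS, hSm⟩ := rootset (q ^ d) (Nat.one_le_pow _ _ (by omega)) (-1 : k) (by
    intro h
    exfalso
    have : 2 ≤ q ^ d := hq2.trans (Nat.le_self_pow (by omega) q)
    omega)
  have hdiv : ∀ c : Fin n → F, rt (k := k) X c =
      rt (k := k) X c / rt (k := k) X c₁ * rt (k := k) X c₁ := fun c => by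
    field_simp
  refine fil P hq2 hF U K (fun c => rt (k := k) X c / rt (k := k) X c₁)
    (fun c d => by rw [rt_add, add_div]) (fun a c => by rw [rt_smul, mul_div_assoc]) ?_ ?_ S d hS
    ?_
  · intro c hc
    by_cases h0 : rt (k := k) X c = 0
    · left
      show rt (k := k) X c / _ = 0
      rw [h0, zero_div]
    · right
      show 0 ≤ P.ord (rt (k := k) X c / rt (k := k) X c₁)
      rw [P.ord_div h0 hy0]
      have := (hU c hc).resolve_left h0
      omega
  · intro c hc h1
    apply hK c hc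
    by_cases h0 : rt (k := k) X c = 0
    · exact Or.inl h0
    · right
      have h4 : 1 ≤ P.ord (rt (k := k) X c / rt (k := k) X c₁) :=
        h1.resolve_left (div_ne_zero h0 hy0)
      rw [P.ord_div h0 hy0] at h4
      omega
  · intro c hc a ha
    apply hSm
    rw [hres c hc a ha]
    ring

end linear

end P41

open N41 P41 in
theorem p41_thm (hEXI : S_EXI) : S_P41 := by
  classical
  intro p k F _ _ _ _ f q s hp hp2 hch hf hq hF
  have hp3 : 3 ≤ p := by
    have := hp.two_le
    omega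
  have hq3 : 3 ≤ q := by
    rw [hq]
    calc 3 ≤ p := hp3
      _ = p ^ 1 := (pow_one p).symm
      _ ≤ p ^ f := Nat.pow_le_pow_right hp.pos hf
  have hq2 : 2 ≤ q := by omega
  have hq0 : q ≠ 0 := by omega
  have : Fact p.Prime := ⟨hp⟩
  have : Finite F := Nat.finite_of_card_ne_zero (by omega)
  -- existence
  obtain ⟨L, iL, iA, t, X, G₀, ρ, hrel0, hind, htr, hC⟩ := FN1.cover p k F f q (s + 3)
    (fun l => (if l = 0 then 1 else 0) +
      (if l = s + 2 then -(Polynomial.X ^ ((q - 1) * q ^ (s + 1)) +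
        2 * Polynomial.X ^ ((q - 1) * q ^ (s + 1) - 1)) else 0) +
      (if l = 1 then Polynomial.X ^ (q ^ (s + 2) - 2) else 0)) (by omega) (by simp) hp hch hf hq hF
  have hR : PRoots k F L q s t X := by
    refine ⟨?_, hind, htr⟩
    intro i
    have h := hrel0 i
    unfold FN1.lz at h
    have e : ∀ l, Polynomial.aeval t (((if l = 0 then 1 else 0) +
      (if l = s + 2 then -(Polynomial.X ^ ((q - 1) * q ^ (s + 1)) +
        2 * Polynomial.X ^ ((q - 1) * q ^ (s + 1) - 1)) else 0) +
      (if l = 1 then Polynomial.X ^ (q ^ (s + 2) - 2) else 0) : Polynomial k)) * X i ^ q ^ l =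
        (if l = 0 then X i ^ q ^ l else 0) +
        (if l = s + 2 then -(t ^ ((q - 1) * q ^ (s + 1)) + 2 * t ^ ((q - 1) * q ^ (s + 1) - 1)) *
          X i ^ q ^ l else 0) +
        (if l = 1 then t ^ (q ^ (s + 2) - 2) * X i ^ q ^ l else 0) := by
      intro l
      simp only [map_add]
      have e1 : Polynomial.aeval t (if l = 0 then (1 : Polynomial k) else 0) =
          if l = 0 then (1 : L) else 0 := by
        split_ifs <;> simp
      have e2 : Polynomial.aeval t (if l = s + 2 then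
          (-(Polynomial.X ^ ((q - 1) * q ^ (s + 1)) +
            2 * Polynomial.X ^ ((q - 1) * q ^ (s + 1) - 1)) : Polynomial k) else 0) =
          if l = s + 2 then
            -(t ^ ((q - 1) * q ^ (s + 1)) + 2 * t ^ ((q - 1) * q ^ (s + 1) - 1)) else 0 := by
        split_ifs
        · rw [map_neg, map_add, map_mul, map_pow, map_pow, Polynomial.aeval_X, map_ofNat]
        · simp
      have e3 : Polynomial.aeval t (if l = 1 then (Polynomial.X ^ (q ^ (s + 2) - 2) : Polynomial k)
          else 0) = if l = 1 then t ^ (q ^ (s + 2) - 2) else 0 := by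
        split_ifs <;> simp
      rw [e1, e2, e3, add_mul, add_mul, ite_mul, ite_mul, ite_mul, one_mul, zero_mul]
    rw [Finset.sum_congr rfl fun l _ => e l, Finset.sum_add_distrib, Finset.sum_add_distrib,
      Finset.sum_ite_eq', Finset.sum_ite_eq', Finset.sum_ite_eq',
      if_pos (Finset.mem_range.2 (by omega)), if_pos (Finset.mem_range.2 (by omega)),
      if_pos (Finset.mem_range.2 (by omega)), pow_zero, pow_one, pow_one] at h
    linear_combination h
  have : Finite (Matrix.SpecialLinearGroup (Fin (s + 3)) F) :=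
    inferInstanceAs (Finite {A : Matrix (Fin (s + 3)) (Fin (s + 3)) F // A.det = 1})
  have : Finite G₀ := inferInstance
  obtain ⟨hfin, hsep⟩ := TWI.fin_sep ρ t hC.cov
  obtain ⟨P, hP⟩ := hEXI k L t hC.cov.trans hfin hsep
  have ht0 : t ≠ 0 := by
    intro h
    apply hR.tr
    rw [h]
    exact isAlgebraic_zero
  have hchL : CharP L p := charP_of_injective_algebraMap (algebraMap k L).injective p
  -- notation
  obtain ⟨Q, hQdef⟩ : ∃ Q : ℕ, Q = q ^ (s + 1) := ⟨_, rfl⟩
  have hQq : q ≤ Q := by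
    rw [hQdef]
    exact Nat.le_self_pow (by omega) q
  have hQ2 : q ^ (s + 2) = q * Q := by rw [hQdef]; ring
  have hQ3 : q ^ (s + 3) = q * q * Q := by rw [hQdef]; ring
  have hqz : (3 : ℤ) ≤ q := by exact_mod_cast hq3
  have hQz : (q : ℤ) ≤ Q := by exact_mod_cast hQq
  have hqQ : 9 ≤ q * Q := Nat.mul_le_mul hq3 (hq3.trans hQq)
  have hqQ' : 2 ≤ (q - 1) * Q := by
    calc 2 = 2 * 1 := rfl
      _ ≤ (q - 1) * Q := Nat.mul_le_mul (by omega) (by omega)
  set T : ℤ := P.ord t with hT
  obtain ⟨A, hAdef⟩ : ∃ A : L, A = -(t ^ ((q - 1) * Q) + 2 * t ^ ((q - 1) * Q - 1)) := ⟨_, rfl⟩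
  obtain ⟨B, hBdef⟩ : ∃ B : L, B = t ^ (q * Q - 2) := ⟨_, rfl⟩
  have hB0 : B ≠ 0 := by rw [hBdef]; exact pow_ne_zero _ ht0
  have hBo : P.ord B = ((q : ℤ) * Q - 2) * T := by
    rw [hBdef, P.ord_pow ht0, Nat.cast_sub (by omega)]
    push_cast
    rfl
  have hA : A ≠ 0 ∧ P.ord A = ((q : ℤ) - 1) * Q * T := by
    have h2 : P.ord (t ^ ((q - 1) * Q)) = ((q : ℤ) - 1) * Q * T := by
      rw [P.ord_pow ht0, Nat.cast_mul, Nat.cast_sub (by omega)]
      push_cast
      rfl
    have h3 : P.ord (t ^ ((q - 1) * Q - 1)) = (((q : ℤ) - 1) * Q - 1) * T := by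
      rw [P.ord_pow ht0, Nat.cast_sub (by omega), Nat.cast_mul, Nat.cast_sub (by omega)]
      push_cast
      rfl
    have h4 := P.ord_add_of_lt (x := t ^ ((q - 1) * Q))
      (y := algebraMap k L 2 * t ^ ((q - 1) * Q - 1)) (pow_ne_zero _ ht0) (by
        refine P.ge_mono (P.ge_mul (P.ge_const 2) (P.ge_ord _)) ?_
        rw [h2, h3]
        linarith)
    have e : algebraMap k L 2 = 2 := by
      rw [map_ofNat]
    rw [e] at h4
    rw [hAdef]
    refine ⟨neg_ne_zero.2 h4.1, ?_⟩
    rw [P.ord_neg]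
    exact h4.2.trans h2
  obtain ⟨hA0, hAo⟩ := hA
  -- the relation for all combinations
  have hD : Dat k L p f q 1 1 (1 : k) :=
    ⟨hp, hchL, hch, hq, hq2, le_rfl, one_ne_zero, fun h => absurd h one_ne_zero⟩
  have hrel : ∀ c : Fin (s + 3) → F, rt (k := k) X c ^ q ^ (s + 3) +
      A * rt (k := k) X c ^ q ^ (s + 2) + B * rt (k := k) X c ^ q ^ 1 +
      rt (k := k) X c ^ q ^ 0 = 0 := by
    intro c
    rw [rt_pow hD hF, rt_pow hD hF, rt_pow hD hF, rt_pow hD hF, mul_sum, mul_sum,
      ← sum_add_distrib, ← sum_add_distrib, ← sum_add_distrib]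
    refine sum_eq_zero fun i _ => ?_
    have h1 := hR.rel i
    rw [← hQdef, hQ2] at h1
    rw [pow_one, pow_zero, pow_one, hQ2, hAdef, hBdef]
    linear_combination cst k F L (c i) * h1
  have o3 : ∀ x : L, x ≠ 0 → P.ord (x ^ q ^ (s + 3)) = (q : ℤ) * q * Q * P.ord x := by
    intro x hx
    rw [P.ord_pow hx, hQ3]
    push_cast
    rfl
  have o2 : ∀ x : L, x ≠ 0 → P.ord (A * x ^ q ^ (s + 2)) =
      ((q : ℤ) - 1) * Q * T + q * Q * P.ord x := by
    intro x hx
    rw [P.ord_mul _ _ hA0 (pow_ne_zero _ hx), P.ord_pow hx, hAo, hQ2]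
    push_cast
    rfl
  have o1 : ∀ x : L, x ≠ 0 → P.ord (B * x ^ q ^ 1) = ((q : ℤ) * Q - 2) * T + q * P.ord x := by
    intro x hx
    rw [P.ord_mul _ _ hB0 (pow_ne_zero _ hx), P.ord_pow hx, hBo, pow_one]
  have o0 : ∀ x : L, x ≠ 0 → P.ord (x ^ q ^ 0) = P.ord x := by
    intro x hx
    rw [pow_zero, pow_one]
  have kinds : ∀ c : Fin (s + 3) → F, rt (k := k) X c ≠ 0 →
      ((q : ℤ) - 1) * P.ord (rt (k := k) X c) = -(((q : ℤ) * Q - 2) * T) ∨
      (q : ℤ) * ((Q : ℤ) - 1) * P.ord (rt (k := k) X c) = ((Q : ℤ) - 2) * T ∨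
      (q : ℤ) * P.ord (rt (k := k) X c) = T := by
    intro c hx
    have r := hrel c
    obtain ⟨x, hxd⟩ : ∃ x : L, x = rt (k := k) X c := ⟨_, rfl⟩
    rw [← hxd] at hx r ⊢
    have n3 := pow_ne_zero (q ^ (s + 3)) hx
    have n2 := mul_ne_zero hA0 (pow_ne_zero (q ^ (s + 2)) hx)
    have n1 := mul_ne_zero hB0 (pow_ne_zero (q ^ 1) hx)
    have n0 := pow_ne_zero (q ^ 0) hx
    rcases tri (q : ℤ) Q T (P.ord x) hqz hQz hP with h | ⟨h1, h2, h3⟩ | ⟨h1, h2, h3⟩ |
      ⟨h1, h2, h3⟩ | ⟨h1, h2, h3⟩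
    · exact h
    · exfalso
      refine no_min4 P n0 (b := x ^ q ^ (s + 3)) (c := A * x ^ q ^ (s + 2))
        (d := B * x ^ q ^ 1) (by linear_combination r) ?_ ?_ ?_
      · rw [P.ge_iff n3, o3 x hx, o0 x hx]; omega
      · rw [P.ge_iff n2, o2 x hx, o0 x hx]; omega
      · rw [P.ge_iff n1, o1 x hx, o0 x hx]; omega
    · exfalso
      refine no_min4 P n1 (b := x ^ q ^ (s + 3)) (c := A * x ^ q ^ (s + 2))
        (d := x ^ q ^ 0) (by linear_combination r) ?_ ?_ ?_
      · rw [P.ge_iff n3, o3 x hx, o1 x hx]; omega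
      · rw [P.ge_iff n2, o2 x hx, o1 x hx]; omega
      · rw [P.ge_iff n0, o0 x hx, o1 x hx]; omega
    · exfalso
      refine no_min4 P n2 (b := x ^ q ^ (s + 3)) (c := B * x ^ q ^ 1)
        (d := x ^ q ^ 0) (by linear_combination r) ?_ ?_ ?_
      · rw [P.ge_iff n3, o3 x hx, o2 x hx]; omega
      · rw [P.ge_iff n1, o1 x hx, o2 x hx]; omega
      · rw [P.ge_iff n0, o0 x hx, o2 x hx]; omega
    · exfalso
      refine no_min4 P n3 (b := A * x ^ q ^ (s + 2)) (c := B * x ^ q ^ 1)
        (d := x ^ q ^ 0) (by linear_combination r) ?_ ?_ ?_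
      · rw [P.ge_iff n2, o2 x hx, o3 x hx]; omega
      · rw [P.ge_iff n1, o1 x hx, o3 x hx]; omega
      · rw [P.ge_iff n0, o0 x hx, o3 x hx]; omega
  have hq0z : (0 : ℤ) < q := by omega
  have g3 : ∀ (x : L) (w : ℤ), P.Ge x w → P.Ge (x ^ q ^ (s + 3)) ((q : ℤ) * q * Q * w) := by
    intro x w h
    have := N41.ge_pow P h (pow_ne_zero (s + 3) hq0)
    rw [hQ3] at this ⊢
    push_cast at this
    exact this
  have g2 : ∀ (x : L) (w : ℤ), P.Ge x w →
      P.Ge (A * x ^ q ^ (s + 2)) (((q : ℤ) - 1) * Q * T + q * Q * w) := by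
    intro x w h
    have := P.ge_mul (P.ge_ord A) (N41.ge_pow P h (pow_ne_zero (s + 2) hq0))
    rw [hQ2, hAo] at this
    rw [hQ2]
    push_cast at this
    exact this
  have g1 : ∀ (x : L) (w : ℤ), P.Ge x w →
      P.Ge (B * x ^ q ^ 1) (((q : ℤ) * Q - 2) * T + q * w) := by
    intro x w h
    have := P.ge_mul (P.ge_ord B) (N41.ge_pow P h (pow_ne_zero 1 hq0))
    rw [hBo] at this
    push_cast at this
    rw [pow_one] at this ⊢
    rw [pow_one] at this
    exact this
  have g0 : ∀ (x : L) (w : ℤ), P.Ge x w → P.Ge (x ^ q ^ 0) w := by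
    intro x w h
    rwa [pow_zero, pow_one]
  -- the thresholds
  obtain ⟨N, hN⟩ : ∃ N : ℤ, N = T / q + 1 := ⟨_, rfl⟩
  have hN0 : N ≤ 0 := by
    have := Int.ediv_neg_of_neg_of_pos hP hq0z
    omega
  have hinj : ∀ c : Fin (s + 3) → F, rt (k := k) X c = 0 → c = 0 := fun c h => hR.ind c h
  have fA : ∀ c : Fin (s + 3) → F, rt (k := k) X c ≠ 0 → 0 ≤ P.ord (rt (k := k) X c) →
      ((q : ℤ) - 1) * P.ord (rt (k := k) X c) = -(((q : ℤ) * Q - 2) * T) := by
    intro c h0 h1
    rcases kinds c h0 with h | h | h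
    · exact h
    · have := (kB hqz hQz hP h).1
      omega
    · have := (kC hqz hQz hP h).1
      omega
  have fB : ∀ c : Fin (s + 3) → F, rt (k := k) X c ≠ 0 → N ≤ P.ord (rt (k := k) X c) →
      P.ord (rt (k := k) X c) < 0 →
      (q : ℤ) * ((Q : ℤ) - 1) * P.ord (rt (k := k) X c) = ((Q : ℤ) - 2) * T := by
    intro c h0 h1 h2
    rcases kinds c h0 with h | h | h
    · have := (kA hqz hQz hP h).1
      omega
    · exact h
    · exfalso
      have h3 : T / q = P.ord (rt (k := k) X c) := by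
        rw [← h]
        exact Int.mul_ediv_cancel_left _ hq0z.ne'
      omega
  have fBN : ∀ w : ℤ, T < q * w → N ≤ w := by
    intro w h
    have : T / q < w := Int.ediv_lt_of_lt_mul hq0z (by rw [mul_comm]; exact h)
    omega
  have fC : ∀ c : Fin (s + 3) → F, rt (k := k) X c ≠ 0 → P.ord (rt (k := k) X c) < N →
      (q : ℤ) * P.ord (rt (k := k) X c) = T := by
    intro c h0 h1
    rcases kinds c h0 with h | h | h
    · have := (kA hqz hQz hP h).1
      omega
    · have := fBN _ (kB hqz hQz hP h).2.1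
      omega
    · exact h
  -- the dimensions
  have hW : ∀ (m : ℤ) (c : Fin (s + 3) → F), c ∈ W (F := F) P X m ↔ P.Ge (rt (k := k) X c) m :=
    fun m c => mem_W P X m c
  have hA3 : Module.finrank F (Fin (s + 3) → F) ≤ Module.finrank F (W (F := F) P X N) + 1 := by
    by_cases hall : ∀ c, c ∈ W (F := F) P X N
    · have h1 : W (F := F) P X N = ⊤ := Submodule.eq_top_iff'.2 hall
      rw [h1, finrank_top]
      omega
    · push Not at hall
      obtain ⟨c₁, hc₁⟩ := hall
      obtain ⟨hy0, hyo⟩ := P.not_ge.1 (fun h => hc₁ ((hW N c₁).2 h))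
      have hk1 := fC c₁ hy0 hyo
      obtain ⟨e1, e2, e3, e4⟩ := kC hqz hQz hP hk1
      have hNw : N = P.ord (rt (k := k) X c₁) + 1 := by
        rw [hN, ← hk1, Int.mul_ediv_cancel_left _ hq0z.ne']
      have hU : ∀ c ∈ (⊤ : Submodule F (Fin (s + 3) → F)),
          P.Ge (rt (k := k) X c) (P.ord (rt (k := k) X c₁)) := by
        intro c _
        by_cases h0 : rt (k := k) X c = 0
        · exact Or.inl h0
        · right
          rcases kinds c h0 with h | h | h
          · have := (kA hqz hQz hP h).1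
            omega
          · have h5 := (kB hqz hQz hP h).2.1
            rw [← hk1] at h5
            exact (lt_of_mul_lt_mul_left h5 hq0z.le).le
          · rw [← hk1] at h
            exact (mul_left_cancel₀ hq0z.ne' h).ge
      have h1 := step P hq2 hF ⊤ (W (F := F) P X N) X c₁ hy0 hU
        (fun c _ h => (hW N c).2 (by rw [hNw]; exact h)) 1 le_rfl
        (by
          intro c hc a ha
          have r := hrel c
          have r₁ := hrel c₁
          have gx := hU c hc
          have gy := P.ge_ord (rt (k := k) X c₁)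
          refine frob_inj hp hq hq0 (u := s + 2) (d := 1) ?_
          refine res P hp hq hq0 (s + 2) (s + 3) (A := A) (B := 1)
            (Rx := B * rt (k := k) X c ^ q ^ 1 + rt (k := k) X c ^ q ^ 0)
            (Ry := B * rt (k := k) X c₁ ^ q ^ 1 + rt (k := k) X c₁ ^ q ^ 0)
            hy0 hA0 (o2 _ hy0) ?_ ?_ ?_ (by linear_combination r) (by linear_combination r₁) ha
          · rw [one_mul]
            exact P.ge_mono (g3 _ _ gy) e4.ge
          · exact P.ge_add (P.ge_mono (g1 _ _ gx) e2) (P.ge_mono (g0 _ _ gx) e3)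
          · exact P.ge_add (P.ge_mono (g1 _ _ gy) e2) (P.ge_mono (g0 _ _ gy) e3))
      rwa [finrank_top] at h1
  have hA2 : Module.finrank F (W (F := F) P X N) ≤
      Module.finrank F (W (F := F) P X 0) + (s + 1) := by
    by_cases hall : ∀ c ∈ W (F := F) P X N, c ∈ W (F := F) P X 0
    · have h1 := Submodule.finrank_mono (show W (F := F) P X N ≤ W (F := F) P X 0 from hall)
      omega
    · push Not at hall
      obtain ⟨c₁, hc₁N, hc₁⟩ := hall
      obtain ⟨hy0, hyo⟩ := P.not_ge.1 (fun h => hc₁ ((hW 0 c₁).2 h))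
      have hk1 := fB c₁ hy0 (((hW N c₁).1 hc₁N).resolve_left hy0) hyo
      obtain ⟨e1, e2, e3, e4, e5⟩ := kB hqz hQz hP hk1
      have hqQ1 : (0 : ℤ) < (q : ℤ) * ((Q : ℤ) - 1) := mul_pos hq0z (by omega)
      have hU : ∀ c ∈ W (F := F) P X N,
          P.Ge (rt (k := k) X c) (P.ord (rt (k := k) X c₁)) := by
        intro c hc
        by_cases h0 : rt (k := k) X c = 0
        · exact Or.inl h0
        · right
          rcases lt_or_ge (P.ord (rt (k := k) X c)) 0 with h5 | h5
          · have h := fB c h0 (((hW N c).1 hc).resolve_left h0) h5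
            rw [← hk1] at h
            exact (mul_left_cancel₀ hqQ1.ne' h).ge
          · omega
      exact step P hq2 hF (W (F := F) P X N) (W (F := F) P X 0) X c₁ hy0 hU
        (by
          intro c hc h
          rw [hW]
          by_cases h0 : rt (k := k) X c = 0
          · exact Or.inl h0
          · right
            by_contra h5
            rw [not_le] at h5
            have h6 := fB c h0 (((hW N c).1 hc).resolve_left h0) h5
            rw [← hk1] at h6
            have h7 := mul_left_cancel₀ hqQ1.ne' h6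
            have h8 := h.resolve_left h0
            omega) (s + 1) (by omega)
        (by
          intro c hc a ha
          have r := hrel c
          have r₁ := hrel c₁
          have gx := hU c hc
          have gy := P.ge_ord (rt (k := k) X c₁)
          refine frob_inj hp hq hq0 (u := 1) (d := s + 1) ?_
          rw [show 1 + (s + 1) = s + 2 by ring]
          refine res P hp hq hq0 1 (s + 2) (A := B) (B := A)
            (Rx := rt (k := k) X c ^ q ^ (s + 3) + rt (k := k) X c ^ q ^ 0)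
            (Ry := rt (k := k) X c₁ ^ q ^ (s + 3) + rt (k := k) X c₁ ^ q ^ 0)
            hy0 hB0 (o1 _ hy0) ?_ ?_ ?_ (by linear_combination r) (by linear_combination r₁) ha
          · exact P.ge_mono (g2 _ _ gy) e5.ge
          · exact P.ge_add (P.ge_mono (g3 _ _ gx) e3) (P.ge_mono (g0 _ _ gx) e4)
          · exact P.ge_add (P.ge_mono (g3 _ _ gy) e3) (P.ge_mono (g0 _ _ gy) e4))
  have hq1z : (0 : ℤ) < (q : ℤ) - 1 := by omega
  have hA1 : Module.finrank F (W (F := F) P X 0) ≤ 1 := by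
    by_cases hall : ∀ c ∈ W (F := F) P X 0, c = 0
    · have h1 : W (F := F) P X 0 = ⊥ := (Submodule.eq_bot_iff _).2 hall
      rw [h1, finrank_bot]
      omega
    · push Not at hall
      obtain ⟨c₁, hc₁, hc0⟩ := hall
      have hy0 : rt (k := k) X c₁ ≠ 0 := fun h => hc0 (hinj _ h)
      have hk1 := fA c₁ hy0 (((hW 0 c₁).1 hc₁).resolve_left hy0)
      obtain ⟨e1, e2, e3⟩ := kA hqz hQz hP hk1
      have hsame : ∀ c ∈ W (F := F) P X 0, rt (k := k) X c ≠ 0 →
          P.ord (rt (k := k) X c) = P.ord (rt (k := k) X c₁) := by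
        intro c hc h0
        have h := fA c h0 (((hW 0 c).1 hc).resolve_left h0)
        rw [← hk1] at h
        exact mul_left_cancel₀ hq1z.ne' h
      have hU : ∀ c ∈ W (F := F) P X 0,
          P.Ge (rt (k := k) X c) (P.ord (rt (k := k) X c₁)) := by
        intro c hc
        by_cases h0 : rt (k := k) X c = 0
        · exact Or.inl h0
        · exact Or.inr (hsame c hc h0).ge
      have h1 := step P hq2 hF (W (F := F) P X 0) ⊥ X c₁ hy0 hU
        (by
          intro c hc h
          rw [Submodule.mem_bot]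
          by_contra h5
          have h0 : rt (k := k) X c ≠ 0 := fun h => h5 (hinj _ h)
          have h6 := hsame c hc h0
          have h7 := h.resolve_left h0
          omega) 1 le_rfl
        (by
          intro c hc a ha
          have r := hrel c
          have r₁ := hrel c₁
          have gx := hU c hc
          have gy := P.ge_ord (rt (k := k) X c₁)
          refine frob_inj hp hq hq0 (u := 0) (d := 1) ?_
          rw [zero_add]
          refine res P hp hq hq0 0 1 (A := 1) (B := B)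
            (Rx := rt (k := k) X c ^ q ^ (s + 3) + A * rt (k := k) X c ^ q ^ (s + 2))
            (Ry := rt (k := k) X c₁ ^ q ^ (s + 3) + A * rt (k := k) X c₁ ^ q ^ (s + 2))
            (m := P.ord (rt (k := k) X c₁))
            hy0 one_ne_zero ?_ ?_ ?_ ?_ (by linear_combination r) (by linear_combination r₁) ha
          · rw [one_mul, o0 _ hy0]
          · refine P.ge_mono (g1 _ _ gy) ?_
            linarith
          · exact P.ge_add (P.ge_mono (g3 _ _ gx) e2) (P.ge_mono (g2 _ _ gx) e3)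
          · exact P.ge_add (P.ge_mono (g3 _ _ gy) e2) (P.ge_mono (g2 _ _ gy) e3))
      rwa [finrank_bot, zero_add] at h1
  rw [Module.finrank_fin_fun] at hA3
  have d0 : Module.finrank F (W (F := F) P X 0) = 1 := by omega
  have dN : Module.finrank F (W (F := F) P X N) = s + 2 := by omega
  have h0N : W (F := F) P X 0 ≤ W (F := F) P X N := by
    intro c hc
    exact P.ge_mono ((hW 0 c).1 hc) hN0
  -- the basis
  obtain ⟨v, hv, hvm⟩ := build (F := F) (V := Fin (s + 3) → F) (s + 3)
    (fun l => if l = 0 then W (F := F) P X 0 else if l < s + 2 then W (F := F) P X N else ⊤)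
    (by
      intro l hl
      show l < Module.finrank F
        (if l = 0 then W (F := F) P X 0 else if l < s + 2 then W (F := F) P X N else ⊤ :
          Submodule F (Fin (s + 3) → F))
      by_cases h1 : l = 0
      · rw [if_pos h1, d0, h1]
        exact Nat.zero_lt_one
      · by_cases h2 : l < s + 2
        · rw [if_neg h1, if_pos h2, dN]
          exact h2
        · rw [if_neg h1, if_neg h2, finrank_top, Module.finrank_fin_fun]
          exact hl) (s + 3) le_rfl
  have v0 : v 0 ∈ W (F := F) P X 0 := by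
    have h1 := hvm 0
    simpa using h1
  have vN : ∀ i, i.val < s + 2 → v i ∈ W (F := F) P X N := by
    intro i hi
    have h1 := hvm i
    by_cases h0 : i.val = 0
    · rw [if_pos h0] at h1
      exact h0N h1
    · rw [if_neg h0, if_pos hi] at h1
      exact h1
  have v1 : ∀ i : Fin (s + 3), i.val < 1 → v i ∈ W (F := F) P X 0 := by
    intro i hi
    have h0 : i = 0 := by
      apply Fin.ext
      show i.val = 0
      omega
    rw [h0]
    exact v0
  have hdet : (Matrix.of v).transpose.det ≠ 0 := by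
    rw [Matrix.det_transpose]
    have h1 : IsUnit (Matrix.of v) := Matrix.linearIndependent_rows_iff_isUnit.1 hv
    exact ((Matrix.isUnit_iff_isUnit_det _).1 h1).ne_zero
  obtain ⟨G₁, ρ₁, hR₁, hC₁⟩ := basis p k F L f q s t X G₀ ρ (Matrix.of v).transpose hp hch hq
    hF hR hC hdet
  have hbas : ∀ c : Fin (s + 3) → F,
      ∑ i, cst k F L (c i) * (∑ j, cst k F L ((Matrix.of v).transpose j i) * X j) =
        rt (k := k) X (∑ i, c i • v i) := fun c => rt_basis X v c
  have hlast : (Fin.last (s + 2)).val = s + 2 := rfl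
  refine ⟨L, iL, iA, t,
    fun i => ∑ j, cst k F L ((Matrix.of v).transpose j i) * X j, G₁, ρ₁, P, hR₁, hC₁, hP, ?_, ?_, ?_⟩
  · have e : (∑ j, cst k F L ((Matrix.of v).transpose j 0) * X j) = rt (k := k) X (v 0) := rfl
    show ((q : ℤ) - 1) * P.ord (∑ j, cst k F L ((Matrix.of v).transpose j 0) * X j) =
      -(((q : ℤ) ^ (s + 2) - 2) * P.ord t)
    rw [e]
    have hne : rt (k := k) X (v 0) ≠ 0 := fun h => hv.ne_zero 0 (hinj _ h)
    have h1 := fA _ hne (((hW 0 _).1 v0).resolve_left hne)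
    have h2 : (q : ℤ) ^ (s + 2) = q * Q := by exact_mod_cast hQ2
    rw [h2]
    exact h1
  · rintro c hc0 ⟨i, hi, hci⟩
    show (q : ℤ) * ((q : ℤ) ^ (s + 1) - 1) *
      P.ord (∑ i, cst k F L (c i) * (∑ j, cst k F L ((Matrix.of v).transpose j i) * X j)) =
      ((q : ℤ) ^ (s + 1) - 2) * P.ord t
    rw [hbas c]
    have h1 : ∑ i, c i • v i ∈ W (F := F) P X N := by
      refine Submodule.sum_mem _ fun j _ => ?_
      rcases lt_or_ge j.val (s + 2) with h | h
      · exact Submodule.smul_mem _ _ (vN j h)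
      · have hj : j = Fin.last (s + 2) := by
          apply Fin.ext
          rw [hlast]
          have := j.2
          omega
        rw [hj, hc0, zero_smul]
        exact Submodule.zero_mem _
    have h2 : ¬ ∑ i, c i • v i ∈ W (F := F) P X 0 := by
      intro h2
      refine hci (coord (s := 1) (by omega) v hv _ d0 v1 c h2 i ?_)
      by_contra h3
      apply hi
      apply Fin.ext
      show i.val = 0
      omega
    obtain ⟨h3, h4⟩ := P.not_ge.1 (fun h => h2 ((hW 0 _).2 h))
    have h5 := ((hW N _).1 h1).resolve_left h3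
    have h6 := fB _ h3 h5 h4
    have h7 : (q : ℤ) ^ (s + 1) = Q := by rw [hQdef]; push_cast; rfl
    rw [h7]
    exact h6
  · intro c hc
    show (q : ℤ) *
      P.ord (∑ i, cst k F L (c i) * (∑ j, cst k F L ((Matrix.of v).transpose j i) * X j)) = P.ord t
    rw [hbas c]
    have h2 : ¬ ∑ i, c i • v i ∈ W (F := F) P X N := by
      intro h2
      exact hc (coord (s := s + 2) (by omega) v hv _ dN vN c h2 (Fin.last (s + 2)) hlast.ge)
    obtain ⟨h3, h4⟩ := P.not_ge.1 (fun h => h2 ((hW N _).2 h))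
    exact fC _ h3 h4

end Pool.CND
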